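import Pool.Agent.Helper67.DO.StmtsE1

/-!
# MP_d07457_gt, module E11: values of the classes on wedges
-/

set_option autoImplicit false

namespace Pool.Agent.Helper67.DO

open scoped BigOperators Real

theorem e11_isOpen_St (s : ℝ) : IsOpen (St s) := by
  have : Continuous (fun z : ℂ => |z.im|) := Complex.continuous_im.abs
  exact isOpen_lt this continuous_const

theorem e11_mem (s : ℝ) (hs : 0 < s) (x : ℝ) : (x : ℂ) ∈ St s := by
  simp [St, hs]

theorem e11_cont (s : ℝ) (hs : 0 < s) (f : ℂ → ℂ) (hf : DifferentiableOn ℂ f (St s)) :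
    Continuous (fun x : ℝ => f (x : ℂ)) :=
  hf.continuousOn.comp_continuous Complex.continuous_ofReal (e11_mem s hs)

theorem e11_hd (s : ℝ) (f : ℂ → ℂ) (hf : DifferentiableOn ℂ f (St s)) (z : ℂ) (hz : z ∈ St s) :
    HasDerivAt f (deriv f z) z :=
  ((hf z hz).differentiableAt ((e11_isOpen_St s).mem_nhds hz)).hasDerivAt

theorem e11_expand (q : ℕ) {K : Type} [Fintype K] (c : K → ℂ) (u : K → Fin (q + 2) → ℂ → ℂ)
    (a t : ℂ) (w : Fin q → ℂ) :
    (∑ k, c k * ∏ j, u k j ((Fin.cons a (Fin.cons t w : Fin (q + 1) → ℂ) : Fin (q + 2) → ℂ) j)) =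
    ∑ k, (c k * ∏ j : Fin q, u k j.succ.succ (w j)) * (u k 0 a * u k 1 t) := by
  refine Finset.sum_congr rfl (fun k _ => ?_)
  rw [Fin.prod_univ_succ, Fin.prod_univ_succ]
  simp only [Fin.cons_zero, Fin.cons_succ]
  rw [Fin.succ_zero_eq_one]
  ring

theorem e11_ec (s : ℝ) (hs : 0 < s) (q : ℕ) {K : Type} [Fintype K] (c : K → ℂ)
    (u : K → Fin (q + 2) → ℂ → ℂ) (hu : ∀ k j, DifferentiableOn ℂ (u k j) (St s))
    (w : Fin q → ℂ) :
    ec q (fun z => ∑ k, c k * ∏ j, u k j (z j)) w =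
      ∑ k, (c k * ∫ x in (0 : ℝ)..1, u k 0 x * deriv (u k 1) x) *
        ∏ j : Fin q, u k j.succ.succ (w j) := by
  unfold ec
  have h1 : ∀ x : ℝ, deriv (fun t : ℂ => (∑ k, c k * ∏ j, u k j
      ((Fin.cons (x : ℂ) (Fin.cons t w : Fin (q + 1) → ℂ) : Fin (q + 2) → ℂ) j))) (x : ℂ) =
      ∑ k, (c k * ∏ j : Fin q, u k j.succ.succ (w j)) * (u k 0 x * deriv (u k 1) x) := by
    intro x
    have h2 : (fun t : ℂ => (∑ k, c k * ∏ j, u k j
      ((Fin.cons (x : ℂ) (Fin.cons t w : Fin (q + 1) → ℂ) : Fin (q + 2) → ℂ) j))) =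
      fun t => ∑ k, (c k * ∏ j : Fin q, u k j.succ.succ (w j)) * (u k 0 x * u k 1 t) := by
      funext t
      exact e11_expand q c u x t w
    rw [h2]
    apply HasDerivAt.deriv
    apply HasDerivAt.fun_sum
    intro k _
    exact ((e11_hd s _ (hu k 1) x (e11_mem s hs x)).const_mul _).const_mul _
  rw [intervalIntegral.integral_congr (g := fun x : ℝ => ∑ k, (c k * ∏ j : Fin q,
    u k j.succ.succ (w j)) * (u k 0 x * deriv (u k 1) x)) (fun x _ => h1 x)]
  rw [intervalIntegral.integral_finsetSum]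
  · refine Finset.sum_congr rfl (fun k _ => ?_)
    rw [intervalIntegral.integral_const_mul]
    ring
  · intro k _
    apply Continuous.intervalIntegrable
    exact continuous_const.mul ((e11_cont s hs _ (hu k 0)).mul
      (e11_cont s hs _ ((hu k 1).deriv (e11_isOpen_St s))))

theorem e11_gc (s : ℝ) (hs : 0 < s) (q : ℕ) {K : Type} [Fintype K] (c : K → ℂ)
    (u : K → Fin (q + 2) → ℂ → ℂ) (hu : ∀ k j, DifferentiableOn ℂ (u k j) (St s))
    (w : Fin q → ℂ) :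
    gc q (fun z => ∑ k, c k * ∏ j, u k j (z j)) w =
      ∑ k, (c k * ∫ x in (0 : ℝ)..1, deriv (u k 0) x * iteratedDeriv 2 (u k 1) x) *
        ∏ j : Fin q, u k j.succ.succ (w j) := by
  unfold gc
  have hd2 : ∀ k, DifferentiableOn ℂ (deriv (u k 1)) (St s) :=
    fun k => (hu k 1).deriv (e11_isOpen_St s)
  have h0 : ∀ (x : ℝ) (a : ℂ), iteratedDeriv 2 (fun t : ℂ => (∑ k, c k * ∏ j, u k j
      ((Fin.cons a (Fin.cons t w : Fin (q + 1) → ℂ) : Fin (q + 2) → ℂ) j))) (x : ℂ) =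
      ∑ k, (c k * ∏ j : Fin q, u k j.succ.succ (w j)) *
        (u k 0 a * iteratedDeriv 2 (u k 1) (x : ℂ)) := by
    intro x a
    have h2 : (fun t : ℂ => (∑ k, c k * ∏ j, u k j
      ((Fin.cons a (Fin.cons t w : Fin (q + 1) → ℂ) : Fin (q + 2) → ℂ) j))) =
      fun t => ∑ k, (c k * ∏ j : Fin q, u k j.succ.succ (w j)) * (u k 0 a * u k 1 t) := by
      funext t
      exact e11_expand q c u a t w
    rw [h2]
    simp only [iteratedDeriv_succ, iteratedDeriv_zero]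
    have h3 : deriv (fun t => ∑ k, (c k * ∏ j : Fin q, u k j.succ.succ (w j)) *
        (u k 0 a * u k 1 t)) =ᶠ[nhds (x : ℂ)]
        (fun t => ∑ k, (c k * ∏ j : Fin q, u k j.succ.succ (w j)) *
        (u k 0 a * deriv (u k 1) t)) := by
      filter_upwards [(e11_isOpen_St s).mem_nhds (e11_mem s hs x)] with t ht
      apply HasDerivAt.deriv
      apply HasDerivAt.fun_sum
      intro k _
      exact ((e11_hd s _ (hu k 1) t ht).const_mul _).const_mul _
    rw [h3.deriv_eq]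
    apply HasDerivAt.deriv
    apply HasDerivAt.fun_sum
    intro k _
    exact ((e11_hd s _ (hd2 k) x (e11_mem s hs x)).const_mul _).const_mul _
  have h1 : ∀ x : ℝ, deriv (fun a : ℂ => iteratedDeriv 2 (fun t : ℂ => (∑ k, c k * ∏ j, u k j
      ((Fin.cons a (Fin.cons t w : Fin (q + 1) → ℂ) : Fin (q + 2) → ℂ) j))) (x : ℂ)) (x : ℂ) =
      ∑ k, (c k * ∏ j : Fin q, u k j.succ.succ (w j)) *
        (deriv (u k 0) x * iteratedDeriv 2 (u k 1) (x : ℂ)) := by
    intro x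
    rw [show (fun a : ℂ => iteratedDeriv 2 (fun t : ℂ => (∑ k, c k * ∏ j, u k j
      ((Fin.cons a (Fin.cons t w : Fin (q + 1) → ℂ) : Fin (q + 2) → ℂ) j))) (x : ℂ)) =
      fun a => ∑ k, (c k * ∏ j : Fin q, u k j.succ.succ (w j)) *
        (u k 0 a * iteratedDeriv 2 (u k 1) (x : ℂ)) from funext (h0 x)]
    apply HasDerivAt.deriv
    apply HasDerivAt.fun_sum
    intro k _
    exact ((e11_hd s _ (hu k 0) x (e11_mem s hs x)).mul_const _).const_mul _
  rw [intervalIntegral.integral_congr (g := fun x : ℝ => ∑ k, (c k * ∏ j : Fin q,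
    u k j.succ.succ (w j)) * (deriv (u k 0) x * iteratedDeriv 2 (u k 1) x)) (fun x _ => h1 x)]
  rw [intervalIntegral.integral_finsetSum]
  · refine Finset.sum_congr rfl (fun k _ => ?_)
    rw [intervalIntegral.integral_const_mul]
    ring
  · intro k _
    apply Continuous.intervalIntegrable
    refine continuous_const.mul ((e11_cont s hs _ ((hu k 0).deriv (e11_isOpen_St s))).mul ?_)
    have h4 : (fun x : ℝ => iteratedDeriv 2 (u k 1) (x : ℂ)) =
        fun x : ℝ => deriv (deriv (u k 1)) (x : ℂ) := by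
      funext x
      simp only [iteratedDeriv_succ, iteratedDeriv_zero]
    rw [h4]
    exact e11_cont s hs _ ((hd2 k).deriv (e11_isOpen_St s))

theorem e11_em (s : ℝ) (hs : 0 < s) (m : ℕ) : ∀ {K : Type} [Fintype K] (c : K → ℂ)
    (u : K → Fin (2 * m) → ℂ → ℂ) (_ : ∀ k j, DifferentiableOn ℂ (u k j) (St s)),
    Em m (fun z => ∑ k, c k * ∏ j, u k j (z j)) =
      ∑ k, c k * ∏ i : Fin m, ∫ x in (0 : ℝ)..1, u k ⟨2 * i, by omega⟩ x *
        deriv (u k ⟨2 * i + 1, by omega⟩) x := by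
  induction m with
  | zero =>
    intro K _ c u _
    simp [Em]
  | succ m ih =>
    intro K _ c u hu
    show Em m (ec (2 * m) (fun z => ∑ k, c k * ∏ j, u k j (z j))) = _
    rw [show (ec (2 * m) (fun z => ∑ k, c k * ∏ j, u k j (z j))) =
      fun w => ∑ k, (c k * ∫ x in (0 : ℝ)..1, u k 0 x * deriv (u k 1) x) *
        ∏ j : Fin (2 * m), u k j.succ.succ (w j) from funext (e11_ec s hs (2 * m) c u hu)]
    rw [ih (fun k => c k * ∫ x in (0 : ℝ)..1, u k 0 x * deriv (u k 1) x)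
      (fun k j => u k j.succ.succ) (fun k j => hu k _)]
    refine Finset.sum_congr rfl (fun k _ => ?_)
    rw [Fin.prod_univ_succ, mul_assoc]
    have e0 : (⟨2 * ((0 : Fin (m + 1)) : ℕ), by omega⟩ : Fin (2 * m + 2)) = 0 := rfl
    have e1 : (⟨2 * ((0 : Fin (m + 1)) : ℕ) + 1, by omega⟩ : Fin (2 * m + 2)) = 1 := rfl
    have e2 : ∀ i : Fin m, (⟨2 * (i.succ : ℕ), by omega⟩ : Fin (2 * m + 2)) =
        (⟨2 * (i : ℕ), by omega⟩ : Fin (2 * m)).succ.succ :=
      fun i => Fin.ext (by simp [Fin.val_succ, Nat.mul_add])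
    have e3 : ∀ i : Fin m, (⟨2 * (i.succ : ℕ) + 1, by omega⟩ : Fin (2 * m + 2)) =
        (⟨2 * (i : ℕ) + 1, by omega⟩ : Fin (2 * m)).succ.succ :=
      fun i => Fin.ext (by simp [Fin.val_succ, Nat.mul_add])
    have e4 : ∀ i : Fin m, (∫ x in (0 : ℝ)..1, u k ⟨2 * (i.succ : ℕ), by omega⟩ x *
        deriv (u k ⟨2 * (i.succ : ℕ) + 1, by omega⟩) x) =
        ∫ x in (0 : ℝ)..1, u k (⟨2 * (i : ℕ), by omega⟩ : Fin (2 * m)).succ.succ x *
        deriv (u k (⟨2 * (i : ℕ) + 1, by omega⟩ : Fin (2 * m)).succ.succ) x := by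
      intro i
      have h2 := congrArg (u k) (e2 i)
      have h3 := congrArg (u k) (e3 i)
      exact congrArg₂ (fun f g : ℂ → ℂ => ∫ x in (0 : ℝ)..1, f x * deriv g x) h2 h3
    have e5 : (∫ x in (0 : ℝ)..1, u k ⟨2 * ((0 : Fin (m + 1)) : ℕ), by omega⟩ x *
        deriv (u k ⟨2 * ((0 : Fin (m + 1)) : ℕ) + 1, by omega⟩) x) =
        ∫ x in (0 : ℝ)..1, u k 0 x * deriv (u k 1) x :=
      congrArg₂ (fun f g : ℂ → ℂ => ∫ x in (0 : ℝ)..1, f x * deriv g x)
        (congrArg (u k) e0) (congrArg (u k) e1)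
    rw [e5, Finset.prod_congr rfl (fun i _ => e4 i)]

theorem e11_gvm (s : ℝ) (hs : 0 < s) (m : ℕ) : ∀ {K : Type} [Fintype K] (c : K → ℂ)
    (u : K → Fin (2 * m) → ℂ → ℂ) (_ : ∀ k j, DifferentiableOn ℂ (u k j) (St s)),
    GVm m (fun z => ∑ k, c k * ∏ j, u k j (z j)) =
      ∑ k, c k * ∏ i : Fin m, ∫ x in (0 : ℝ)..1, deriv (u k ⟨2 * i, by omega⟩) x *
        iteratedDeriv 2 (u k ⟨2 * i + 1, by omega⟩) x := by
  induction m with
  | zero =>
    intro K _ c u _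
    simp [GVm]
  | succ m ih =>
    intro K _ c u hu
    show GVm m (gc (2 * m) (fun z => ∑ k, c k * ∏ j, u k j (z j))) = _
    rw [show (gc (2 * m) (fun z => ∑ k, c k * ∏ j, u k j (z j))) =
      fun w => ∑ k, (c k * ∫ x in (0 : ℝ)..1, deriv (u k 0) x * iteratedDeriv 2 (u k 1) x) *
        ∏ j : Fin (2 * m), u k j.succ.succ (w j) from funext (e11_gc s hs (2 * m) c u hu)]
    rw [ih (fun k => c k * ∫ x in (0 : ℝ)..1, deriv (u k 0) x * iteratedDeriv 2 (u k 1) x)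
      (fun k j => u k j.succ.succ) (fun k j => hu k _)]
    refine Finset.sum_congr rfl (fun k _ => ?_)
    rw [Fin.prod_univ_succ, mul_assoc]
    have e0 : (⟨2 * ((0 : Fin (m + 1)) : ℕ), by omega⟩ : Fin (2 * m + 2)) = 0 := rfl
    have e1 : (⟨2 * ((0 : Fin (m + 1)) : ℕ) + 1, by omega⟩ : Fin (2 * m + 2)) = 1 := rfl
    have e2 : ∀ i : Fin m, (⟨2 * (i.succ : ℕ), by omega⟩ : Fin (2 * m + 2)) =
        (⟨2 * (i : ℕ), by omega⟩ : Fin (2 * m)).succ.succ :=
      fun i => Fin.ext (by simp [Fin.val_succ, Nat.mul_add])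
    have e3 : ∀ i : Fin m, (⟨2 * (i.succ : ℕ) + 1, by omega⟩ : Fin (2 * m + 2)) =
        (⟨2 * (i : ℕ) + 1, by omega⟩ : Fin (2 * m)).succ.succ :=
      fun i => Fin.ext (by simp [Fin.val_succ, Nat.mul_add])
    have e4 : ∀ i : Fin m, (∫ x in (0 : ℝ)..1, deriv (u k ⟨2 * (i.succ : ℕ), by omega⟩) x *
        iteratedDeriv 2 (u k ⟨2 * (i.succ : ℕ) + 1, by omega⟩) x) =
        ∫ x in (0 : ℝ)..1, deriv (u k (⟨2 * (i : ℕ), by omega⟩ : Fin (2 * m)).succ.succ) x *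
        iteratedDeriv 2 (u k (⟨2 * (i : ℕ) + 1, by omega⟩ : Fin (2 * m)).succ.succ) x := by
      intro i
      have h2 := congrArg (u k) (e2 i)
      have h3 := congrArg (u k) (e3 i)
      exact congrArg₂ (fun f g : ℂ → ℂ => ∫ x in (0 : ℝ)..1, deriv f x * iteratedDeriv 2 g x)
        h2 h3
    have e5 : (∫ x in (0 : ℝ)..1, deriv (u k ⟨2 * ((0 : Fin (m + 1)) : ℕ), by omega⟩) x *
        iteratedDeriv 2 (u k ⟨2 * ((0 : Fin (m + 1)) : ℕ) + 1, by omega⟩) x) =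
        ∫ x in (0 : ℝ)..1, deriv (u k 0) x * iteratedDeriv 2 (u k 1) x :=
      congrArg₂ (fun f g : ℂ → ℂ => ∫ x in (0 : ℝ)..1, deriv f x * iteratedDeriv 2 g x)
        (congrArg (u k) e0) (congrArg (u k) e1)
    rw [e5, Finset.prod_congr rfl (fun i _ => e4 i)]

theorem st_E11 : ST_E11 := by
  intro m s hs v hv _
  have h : WW v = fun z => ∑ σ : Equiv.Perm (Fin (2 * m)), ((Equiv.Perm.sign σ : ℤ) : ℂ) *
      ∏ j, v (σ j) (z j) := by
    funext z
    rw [WW, Matrix.det_apply']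
    rfl
  rw [h]
  exact ⟨e11_em s hs m (K := Equiv.Perm (Fin (2 * m))) (fun σ => ((Equiv.Perm.sign σ : ℤ) : ℂ))
      (fun σ j => v (σ j)) (fun σ j => hv _),
    e11_gvm s hs m (K := Equiv.Perm (Fin (2 * m))) (fun σ => ((Equiv.Perm.sign σ : ℤ) : ℂ))
      (fun σ j => v (σ j)) (fun σ j => hv _)⟩

end Pool.Agent.Helper67.DO
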